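import Pool.Agent.Helper43.Gx.Goals
import Pool.Agent.Helper49.Gm.F2

/-! Packet X8: the profile theorem for exact filling. -/

set_option autoImplicit false

namespace Pool.Agent.Helper43.Gx.PkX8

open Finset Pool.Agent.Lead.Sh
open Pool.Agent.Helper43.Gm (Pri)
open Pool.Agent.Helper43.Ah (Good rowsD mem_rowsD card_rowsD pigeon enum inj_relabel subtotal
  rows_congr ch2_pos choose_mono)

/-- exact totals -/
theorem near (hA : Gm.GoalA) (h7 : GoalX7) (M S R : ℕ) (b' : ℕ → ℕ) (s : Finset ℕ) (mm : ℕ → ℕ)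
    (hM : 1 ≤ M) (h1 : ∀ k ∈ s, 1 ≤ mm k) (hmm : ∀ k ∈ s, mm k ≤ M) (hR : 4 * M + 6 ≤ R)
    (hstep : Step M R (fun j => b' (R - 1 - j))) (hzone : Zone M S R (fun j => b' (R - 1 - j)))
    (htot : ∑ k ∈ s, (mm k + 1).choose 2 = ∑ y ∈ range R, b' y)
    (hbig : M * ∑ y ∈ range (3 * M + 1), b' y ≤ ∑ k ∈ s, (mm k + 1).choose 2) :
    Inj (rowsD R b') (rows mm s) := by
  classical
  obtain ⟨μ, hμ, hμM, hpig⟩ := pigeon M hM s mm h1 hmm
  set Cμ := (μ + 1).choose 2 with hCμ
  set sμ := s.filter (fun k => mm k = μ) with hsμ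
  set oth := s.filter (fun k => ¬ mm k = μ) with hoth
  obtain ⟨e1, e1m, e1i, e1s⟩ := enum oth
  obtain ⟨e2, e2m, e2i, e2s⟩ := enum sμ
  set N0 := oth.card with hN0
  set ν : ℕ → ℕ := fun c => if c < N0 then mm (e1 c) else μ with hν
  have hothm : ∀ k ∈ oth, k ∈ s ∧ mm k ≠ μ := fun k hk => mem_filter.1 hk
  have hsμm : ∀ k ∈ sμ, k ∈ s ∧ mm k = μ := fun k hk => mem_filter.1 hk
  -- sums
  have hsum1 : ∑ k ∈ s, (mm k + 1).choose 2 = ∑ k ∈ oth, (mm k + 1).choose 2 + sμ.card * Cμ := by
    rw [← sum_filter_add_sum_filter_not s (fun k => mm k = μ), add_comm]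
    congr 1
    rw [sum_congr rfl (g := fun _ => Cμ)]
    · rw [sum_const, smul_eq_mul]
    · intro k hk
      rw [(mem_filter.1 hk).2]
  have hsumoth : ∑ c ∈ range N0, (ν c + 1).choose 2 = ∑ k ∈ oth, (mm k + 1).choose 2 := by
    rw [← e1s (fun k => (mm k + 1).choose 2)]
    apply sum_congr rfl
    intro c hc
    rw [mem_range] at hc
    simp only [hν, if_pos hc]
  have hrefl : ∀ K ≤ R, ∑ j ∈ range K, b' (R - 1 - j) = ∑ y ∈ Ico (R - K) R, b' y := by
    intro K hK
    rw [sum_Ico_eq_sum_range, show R - (R - K) = K by omega, ← sum_range_reflect]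
    apply sum_congr rfl
    intro j hj
    rw [mem_range] at hj
    congr 1
    omega
  have hsplitb : ∑ y ∈ range R, b' y =
      ∑ y ∈ range (3 * M + 1), b' y + ∑ y ∈ Ico (3 * M + 1) R, b' y := by
    rw [range_eq_Ico, range_eq_Ico, sum_Ico_consecutive _ (by omega) (by omega)]
  have hlarge : ∑ y ∈ range (3 * M + 1), b' y ≤ sμ.card * Cμ :=
    Nat.le_of_mul_le_mul_left (hbig.trans hpig) (by omega)
  obtain ⟨n, π, ε, hP, hn⟩ := h7 M μ S R N0 (N0 + sμ.card) ν (fun j => b' (R - 1 - j)) hμ hμM (by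
      intro c
      simp only [hν]
      split_ifs with hc
      · exact h1 _ (hothm _ (e1m c hc)).1
      · exact hμ) (by
      intro c
      simp only [hν]
      split_ifs with hc
      · exact hmm _ (hothm _ (e1m c hc)).1
      · exact hμM) (by
      intro c hc
      simp only [hν]
      rw [if_neg (by omega)]) hR hstep hzone (by
      rw [hrefl _ (by omega), show R - (R - (3 * M + 1)) = 3 * M + 1 by omega, hsumoth]
      omega) (by
      rw [hrefl R le_rfl, Nat.sub_self, ← range_eq_Ico, sum_range_add, hsumoth]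
      have : ∑ x ∈ range sμ.card, (ν (N0 + x) + 1).choose 2 = sμ.card * Cμ := by
        rw [sum_congr rfl (g := fun _ => Cμ)]
        · rw [sum_const, smul_eq_mul, card_range]
        · intro c _
          simp only [hν]
          rw [if_neg (by omega)]
      rw [this]
      omega)
  have hPr := Gm.PkF2.pri_rev R ν n π ε (N0 + sμ.card) hP
  have hcore : Inj (rowsD R b') (rows ν (range (N0 + sμ.card))) := by
    refine hA 0 R (fun _ => 0) b' (rowsD R b') ?_ (N0 + sμ.card) ν _ _ _ hPr ?_
    · intro d hd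
      rw [mem_rowsD] at hd
      rw [Nat.zero_mul, Nat.zero_add, Nat.zero_add]
      exact ⟨hd.1, Nat.zero_le _, hd.2⟩
    · intro y hy
      have h2 := hn (R - 1 - y) (by omega)
      rwa [show R - 1 - (R - 1 - y) = y by omega] at h2
  -- relabel
  apply inj_relabel (fun c => if c < N0 then e1 c else e2 (c - N0)) _ _ _ hcore
  · intro c hc
    rw [mem_range] at hc
    by_cases hcN : c < N0
    · simp only [if_pos hcN]
      exact (hothm _ (e1m c hcN)).1
    · simp only [if_neg hcN]
      exact (hsμm _ (e2m _ (by omega))).1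
  · intro c hc c' hc' hee
    rw [mem_range] at hc hc'
    by_cases hcN : c < N0
    · by_cases hcN' : c' < N0
      · simp only [if_pos hcN, if_pos hcN'] at hee
        exact e1i c hcN c' hcN' hee
      · simp only [if_pos hcN, if_neg hcN'] at hee
        exfalso
        have a1 := (hothm _ (e1m c hcN)).2
        have a2 := (hsμm _ (e2m (c' - N0) (by omega))).2
        rw [hee] at a1
        exact a1 a2
    · by_cases hcN' : c' < N0
      · simp only [if_neg hcN, if_pos hcN'] at hee
        exfalso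
        have a1 := (hothm _ (e1m c' hcN')).2
        have a2 := (hsμm _ (e2m (c - N0) (by omega))).2
        rw [← hee] at a1
        exact a1 a2
      · simp only [if_neg hcN, if_neg hcN'] at hee
        have := e2i (c - N0) (by omega) (c' - N0) (by omega) hee
        omega
  · intro c hc
    rw [mem_range] at hc
    by_cases hcN : c < N0
    · simp only [hν, if_pos hcN]
    · simp only [hν, if_neg hcN]
      exact (hsμm _ (e2m _ (by omega))).2

/-- the conditions on the rows are stable under a small change of the first rows -/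
lemma step_zone {M S R δ : ℕ} {ℓ b' : ℕ → ℕ} (hM : 1 ≤ M)
    (hδ : δ ≤ (M + 1).choose 2)
    (hanti : ∀ y, y + 1 < R → ℓ (y + 1) ≤ ℓ y)
    (hstr : ∀ y, y + 1 < R → ℓ (y + 1) < ℓ y ∨ M ≤ ℓ (y + 1))
    (hlong : ∀ y ≤ 2 * M, (26 + S) * M ^ 2 + 1 ≤ ℓ y)
    (hC : ∀ y ≤ (M + 1).choose 2, 2 * M + 2 ≤ ℓ y)
    (hconv : ∀ y, y + 2 ≤ M → ℓ y + ℓ (y + 2) ≤ 2 * ℓ (y + 1) + S)
    (hb : (∀ y, b' y = if y < δ then ℓ y + 1 else ℓ y) ∨
      (∀ y, b' y = if y < δ then ℓ y - 1 else ℓ y)) :
    Step M R (fun j => b' (R - 1 - j)) ∧ Zone M (S + 1) R (fun j => b' (R - 1 - j)) := by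
  have hb1 : ∀ y, ℓ y ≤ b' y + 1 ∧ b' y ≤ ℓ y + 1 := by
    intro y
    rcases hb with h | h <;> rw [h y] <;> split_ifs <;> omega
  have hb2 : ∀ y, δ ≤ y → b' y = ℓ y := by
    intro y hy
    rcases hb with h | h <;> rw [h y, if_neg (by omega)]
  refine ⟨⟨?_, ?_⟩, ?_, ?_⟩
  · intro j hj
    have h1 := hanti (R - 1 - (j + 1)) (by omega)
    rw [show R - 1 - (j + 1) + 1 = R - 1 - j by omega] at h1
    show b' (R - 1 - j) ≤ b' (R - 1 - (j + 1)) + 1
    rcases hb with h | h
    · rw [h, h]
      split_ifs <;> omega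
    · rw [h, h]
      split_ifs <;> omega
  · intro j hj
    show b' (R - 1 - j) < b' (R - 1 - (j + 1)) ∨
      (b' (R - 1 - j) ≤ b' (R - 1 - (j + 1)) ∧ M ≤ b' (R - 1 - j)) ∨
      2 * M + 1 ≤ b' (R - 1 - j)
    by_cases hc : R - 1 - j ≤ (M + 1).choose 2
    · right; right
      have h1 := hC _ hc
      have h2 := (hb1 (R - 1 - j)).1
      omega
    · have h1 := hanti (R - 1 - (j + 1)) (by omega)
      have h2 := hstr (R - 1 - (j + 1)) (by omega)
      rw [show R - 1 - (j + 1) + 1 = R - 1 - j by omega] at h1 h2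
      rw [hb2 (R - 1 - j) (by omega), hb2 (R - 1 - (j + 1)) (by omega)]
      rcases h2 with h2 | h2
      · exact Or.inl h2
      · exact Or.inr (Or.inl ⟨h1, h2⟩)
  · intro j hj hj2
    have h1 := hlong (R - 1 - j) (by omega)
    have h2 := (hb1 (R - 1 - j)).1
    show (25 + (S + 1)) * M ^ 2 ≤ b' (R - 1 - j)
    have e : 25 + (S + 1) = 26 + S := by ring
    rw [e]
    omega
  · intro j hj hj2
    show b' (R - 1 - j) + b' (R - 1 - (j + 2)) ≤ 2 * b' (R - 1 - (j + 1)) + (S + 1)
    obtain ⟨y, hy⟩ : ∃ y, R - 1 - (j + 2) = y := ⟨_, rfl⟩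
    rw [hy, show R - 1 - (j + 1) = y + 1 by omega, show R - 1 - j = y + 2 by omega]
    have h1 := hconv y (by omega)
    have h2 := hlong (y + 2) (by omega)
    have h3 := hlong (y + 1) (by omega)
    have h4 := hlong y (by omega)
    have h5 : 1 ≤ (26 + S) * M ^ 2 := Nat.mul_pos (by omega) (by positivity)
    rcases hb with h | h
    · rw [h, h, h]
      split_ifs <;> omega
    · rw [h, h, h]
      split_ifs <;> omega

theorem goalX8 (hA : Gm.GoalA) (h7 : GoalX7) : GoalX8 := by
  classical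
  intro M S R ℓ D hM hD hR hCR hanti hstr hlong hCl hconv hcard s0 mm hmm0
  have hDr : D = rowsD R ℓ := by
    ext d
    rw [hD, mem_rowsD]
  have hDc : D.card = ∑ y ∈ range R, ℓ y := by
    rw [hDr, card_rowsD]
  have hle0 : ∀ y < R, ℓ y ≤ ℓ 0 := by
    intro y
    induction y with
    | zero => intro _; exact le_rfl
    | succ y ih =>
      intro hy
      exact (hanti y hy).trans (ih (by omega))
  set s := s0.filter (fun k => 0 < mm k) with hs
  have hrows : rows mm s0 = rows mm s := by
    ext r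
    rw [mem_rows, mem_rows, hs, mem_filter]
    constructor
    · rintro ⟨a, b⟩; exact ⟨⟨a, by omega⟩, b⟩
    · rintro ⟨⟨a, _⟩, b⟩; exact ⟨a, b⟩
  have hsum0 : ∑ k ∈ s0, (mm k + 1).choose 2 = ∑ k ∈ s, (mm k + 1).choose 2 := by
    rw [hs, sum_filter]
    apply sum_congr rfl
    intro k _
    split_ifs with h1
    · rfl
    · rw [show mm k = 0 by omega]; rfl
  rw [hrows, hsum0]
  have h1 : ∀ k ∈ s, 1 ≤ mm k := fun k hk => (mem_filter.1 hk).2
  have hmm : ∀ k ∈ s, mm k ≤ M := fun k hk => hmm0 k (mem_filter.1 hk).1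
  have hCpos : 1 ≤ (M + 1).choose 2 := ch2_pos hM
  have hfil : ∀ δ ≤ R, ((range R).filter (fun y => y < δ)).card = δ := by
    intro δ hδ
    have : (range R).filter (fun y => y < δ) = range δ := by
      ext y; rw [mem_filter, mem_range, mem_range]; omega
    rw [this, card_range]
  -- the first rows
  have hfirst : ∀ b' : ℕ → ℕ, (∀ y, b' y ≤ ℓ y + 1) → ∀ T, D.card < T + (M + 1).choose 2 →
      M * ∑ y ∈ range (3 * M + 1), b' y ≤ T := by
    intro b' hb' T hT
    have a1 : ∑ y ∈ range (3 * M + 1), b' y ≤ (3 * M + 1) * (ℓ 0 + 1) := by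
      have a2 : ∑ y ∈ range (3 * M + 1), b' y ≤ ∑ _y ∈ range (3 * M + 1), (ℓ 0 + 1) := by
        refine sum_le_sum fun y hy => ?_
        rw [mem_range] at hy
        have a3 := hle0 y (by omega)
        have a4 := hb' y
        omega
      rwa [sum_const, smul_eq_mul, card_range] at a2
    have a5 := Nat.mul_le_mul_left M a1
    rw [← mul_assoc] at a5
    omega
  constructor
  · intro hT
    obtain ⟨s', hs', hT1, hT2⟩ := subtotal M D.card hM mm s hmm hT
    obtain ⟨δ, hδ⟩ := Nat.exists_eq_add_of_le hT1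
    have hδC : δ ≤ (M + 1).choose 2 := by omega
    set b' : ℕ → ℕ := fun y => if y < δ then ℓ y + 1 else ℓ y with hb'
    have hb'1 : ∀ y, ℓ y ≤ b' y ∧ b' y ≤ ℓ y + 1 := by
      intro y; simp only [hb']; split_ifs <;> omega
    have hsb : ∑ y ∈ range R, b' y = ∑ y ∈ range R, ℓ y + δ := by
      have : ∀ y ∈ range R, b' y = ℓ y + (if y < δ then 1 else 0) := by
        intro y _; simp only [hb']; split_ifs <;> omega
      rw [sum_congr rfl this, sum_add_distrib, ← card_filter, hfil δ (by omega)]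
    obtain ⟨hst, hzo⟩ := step_zone (b' := b') hM hδC hanti hstr hlong hCl hconv
      (Or.inl fun y => rfl)
    have hInj := near hA h7 M (S + 1) R b' s' mm hM (fun k hk => h1 k (hs' hk))
      (fun k hk => hmm k (hs' hk)) hR hst hzo (by omega)
      (hfirst b' (fun y => (hb'1 y).2) _ (by omega))
    refine hInj.mono ?_ (rows_mono hs')
    rw [hDr]
    intro d hd
    rw [mem_rowsD] at hd ⊢
    exact ⟨hd.1, lt_of_lt_of_le hd.2 (hb'1 _).1⟩
  · intro hT
    set C := (M + 1).choose 2 with hC
    set t := (D.card - ∑ k ∈ s, (mm k + 1).choose 2) / C with ht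
    set B := s.sup id + 1 with hB
    have hsB : ∀ k ∈ s, k < B := by
      intro k hk
      have : k ≤ s.sup id := le_sup (f := id) hk
      omega
    set mp : ℕ → ℕ := fun k => if k < B then mm k else M with hmp
    set sp := s ∪ Ico B (B + t) with hsp
    have hdj : Disjoint s (Ico B (B + t)) := by
      rw [disjoint_left]
      intro k hk hk2
      rw [mem_Ico] at hk2
      have := hsB k hk
      omega
    have hmps : ∀ k ∈ s, mm k = mp k := by
      intro k hk
      simp only [hmp]
      rw [if_pos (hsB k hk)]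
    have hsump : ∑ k ∈ sp, (mp k + 1).choose 2 = ∑ k ∈ s, (mm k + 1).choose 2 + t * C := by
      rw [hsp, sum_union hdj]
      congr 1
      · apply sum_congr rfl
        intro k hk
        rw [hmps k hk]
      · rw [sum_congr rfl (g := fun _ => C)]
        · rw [sum_const, smul_eq_mul, Nat.card_Ico, Nat.add_sub_cancel_left]
        · intro k hk
          rw [mem_Ico] at hk
          simp only [hmp]
          rw [if_neg (by omega)]
    have hdiv : t * C ≤ D.card - ∑ k ∈ s, (mm k + 1).choose 2 := Nat.div_mul_le_self _ _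
    have hdiv2 : D.card - ∑ k ∈ s, (mm k + 1).choose 2 < t * C + C := by
      have := Nat.lt_div_mul_add (a := D.card - ∑ k ∈ s, (mm k + 1).choose 2) (b := C) (by omega)
      exact this
    obtain ⟨δ, hδ⟩ := Nat.exists_eq_add_of_le
      (show ∑ k ∈ sp, (mp k + 1).choose 2 ≤ D.card by omega)
    have h1p : ∀ k ∈ sp, 1 ≤ mp k := by
      intro k hk
      rcases mem_union.1 hk with hk | hk
      · rw [← hmps k hk]; exact h1 k hk
      · rw [mem_Ico] at hk
        simp only [hmp]
        rw [if_neg (by omega)]; exact hM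
    have hmmp : ∀ k ∈ sp, mp k ≤ M := by
      intro k hk
      rcases mem_union.1 hk with hk | hk
      · rw [← hmps k hk]; exact hmm k hk
      · rw [mem_Ico] at hk
        simp only [hmp]
        rw [if_neg (by omega)]
    have hδC : δ < C := by omega
    set b' : ℕ → ℕ := fun y => if y < δ then ℓ y - 1 else ℓ y with hb'
    have hb'1 : ∀ y, b' y ≤ ℓ y := by
      intro y; simp only [hb']; split_ifs <;> omega
    have hsb : ∑ y ∈ range R, b' y + δ = ∑ y ∈ range R, ℓ y := by
      have : ∀ y ∈ range R, ℓ y = b' y + (if y < δ then 1 else 0) := by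
        intro y _
        simp only [hb']
        split_ifs with h3
        · have := hCl y (by omega)
          omega
        · omega
      rw [sum_congr rfl this, sum_add_distrib, ← card_filter, hfil δ (by omega)]
    obtain ⟨hst, hzo⟩ := step_zone (b' := b') hM hδC.le hanti hstr hlong hCl hconv
      (Or.inr fun y => rfl)
    have hInj := near hA h7 M (S + 1) R b' sp mp hM h1p hmmp hR hst hzo (by omega)
      (hfirst b' (fun y => (hb'1 y).trans (Nat.le_succ _)) _ (by omega))
    obtain ⟨P, hP⟩ := hInj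
    have hInd : Ind (rowsD R b') (rows mp sp) := ⟨P, hP.ind (by
      rw [card_rows, card_rowsD]
      omega)⟩
    refine hInd.mono ?_ ?_
    · rw [hDr]
      intro d hd
      rw [mem_rowsD] at hd ⊢
      exact ⟨hd.1, lt_of_lt_of_le hd.2 (hb'1 _)⟩
    · rw [rows_congr hmps]
      exact rows_mono subset_union_left

end Pool.Agent.Helper43.Gx.PkX8
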